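import Pool.Agent.Q117.CR.Stm

/-!
# Project CR, job TRAP: the weighted primes of a class and primitive characters
-/

set_option autoImplicit false

namespace Pool.Agent.Q153.CR

open Finset Filter
open Pool.Agent.Q117.CR
open Pool.Agent.H398R2.BV (Prim)
open Pool.Agent.H410R2 (psiLog psiLogAP psiLog1)

/-- the log weight up to any bound -/
theorem psiLogAP_eq {x : ℝ} (hx : 1 ≤ x) {N : ℕ} (hN : ⌊x⌋₊ ≤ N) (m c : ℕ) :
    psiLogAP x m c = ∑ n ∈ (Icc 1 N).filter (fun n => n ≡ c [MOD m]),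
      ArithmeticFunction.vonMangoldt n * lp (x / n) := by
  have h0 : (Icc 1 ⌊x⌋₊).filter (fun n => n ≡ c [MOD m]) ⊆
      (Icc 1 N).filter (fun n => n ≡ c [MOD m]) :=
    Finset.filter_subset_filter _ (Finset.Icc_subset_Icc_right hN)
  rw [← Finset.sum_subset h0]
  · unfold psiLogAP
    refine Finset.sum_congr rfl fun n hn => ?_
    rw [Finset.mem_filter, Finset.mem_Icc] at hn
    have hn0 : (0 : ℝ) < n := by exact_mod_cast hn.1.1
    have hnx : (n : ℝ) ≤ x := (Nat.le_floor_iff (by linarith)).mp hn.1.2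
    unfold Q117.CR.lp
    rw [max_eq_right]
    exact Real.log_nonneg (by rw [le_div_iff₀ hn0, one_mul]; exact hnx)
  · intro n hn hn'
    rw [Finset.mem_filter, Finset.mem_Icc] at hn hn'
    have hn0 : (0 : ℝ) < n := by exact_mod_cast hn.1.1
    have hnx : x < n := by
      by_contra hc
      push Not at hc
      exact hn' ⟨⟨hn.1.1, Nat.le_floor hc⟩, hn.2⟩
    unfold Q117.CR.lp
    rw [max_eq_left, mul_zero]
    refine Real.log_nonpos (by positivity) ?_
    rw [div_le_one hn0]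
    exact hnx.le

/-- the log weight up to any bound, all integers -/
theorem psiLog1_eq {x : ℝ} (hx : 1 ≤ x) {N : ℕ} (hN : ⌊x⌋₊ ≤ N) :
    psiLog1 x = ∑ n ∈ Icc 1 N, ArithmeticFunction.vonMangoldt n * lp (x / n) := by
  have h := psiLogAP_eq hx hN 1 0
  have e : ∀ M : ℕ, (Icc 1 M).filter (fun n => n ≡ 0 [MOD 1]) = Icc 1 M := by
    intro M
    refine Finset.filter_true_of_mem fun n _ => Nat.modEq_one
  unfold psiLogAP at h
  rw [e, e] at h
  exact h

section
variable {δ : ℝ} {A B : ℕ}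

/-- the combination of the log weights is the trapezoid -/
theorem comb {F : Finset ℕ} :
    ∑ n ∈ F, ArithmeticFunction.vonMangoldt n * tz δ A B n =
      (1 / δ) * (∑ n ∈ F, ArithmeticFunction.vonMangoldt n * lp (B / n) -
        ∑ n ∈ F, ArithmeticFunction.vonMangoldt n * lp (B * Real.exp (-δ) / n) -
        ∑ n ∈ F, ArithmeticFunction.vonMangoldt n * lp (A * Real.exp δ / n) +
        ∑ n ∈ F, ArithmeticFunction.vonMangoldt n * lp (A / n)) := by
  rw [← Finset.sum_sub_distrib, ← Finset.sum_sub_distrib, ← Finset.sum_add_distrib,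
    Finset.mul_sum]
  refine Finset.sum_congr rfl fun n _ => ?_
  unfold tz
  ring

/-- restricting to the support, and splitting off the primes -/
theorem split_primes (hTZ : St_TZ) (hδ : 0 < δ) (hA : 1 ≤ A)
    (hAB : (A : ℝ) * Real.exp (2 * δ) ≤ B) (p : ℕ → Prop) [DecidablePred p] :
    ∃ E : ℝ, 0 ≤ E ∧ E ≤ 2 * √B * Real.log B ∧
      ∑ n ∈ (Icc 1 B).filter p, ArithmeticFunction.vonMangoldt n * tz δ A B n =
        ∑ n ∈ (Ioc A B).filter (fun n => n.Prime ∧ p n), tz δ A B n * Real.log n + E := by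
  classical
  have hA0 : (0 : ℝ) < A := by exact_mod_cast hA
  have hB1 : (1 : ℝ) ≤ B := by
    have h1 : (1 : ℝ) ≤ A := by exact_mod_cast hA
    have h2 : (1 : ℝ) ≤ Real.exp (2 * δ) := Real.one_le_exp (by linarith)
    have h3 : (1 : ℝ) * 1 ≤ A * Real.exp (2 * δ) := mul_le_mul h1 h2 (by norm_num) hA0.le
    linarith
  refine ⟨∑ n ∈ ((Icc 1 B).filter p).filter (fun n => ¬ n.Prime),
    ArithmeticFunction.vonMangoldt n * tz δ A B n, ?_, ?_, ?_⟩
  · refine Finset.sum_nonneg fun n hn => ?_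
    rw [Finset.mem_filter, Finset.mem_filter, Finset.mem_Icc] at hn
    exact mul_nonneg ArithmeticFunction.vonMangoldt_nonneg
      (hTZ δ A B n hδ hA0 hAB hn.1.1.1).1
  · refine le_trans ?_ (Chebyshev.psi_sub_theta_le hB1)
    rw [Chebyshev.psi_sub_theta_eq_sum_not_prime, Nat.floor_natCast]
    have hsub : ((Icc 1 B).filter p).filter (fun n => ¬ n.Prime) ⊆
        (Ioc 0 B).filter (fun n => ¬ n.Prime) := by
      intro n hn
      rw [Finset.mem_filter, Finset.mem_filter, Finset.mem_Icc] at hn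
      rw [Finset.mem_filter, Finset.mem_Ioc]
      exact ⟨⟨by omega, hn.1.1.2⟩, hn.2⟩
    refine le_trans ?_ (Finset.sum_le_sum_of_subset_of_nonneg hsub
      fun n _ _ => ArithmeticFunction.vonMangoldt_nonneg)
    refine Finset.sum_le_sum fun n hn => ?_
    rw [Finset.mem_filter, Finset.mem_filter, Finset.mem_Icc] at hn
    exact mul_le_of_le_one_right ArithmeticFunction.vonMangoldt_nonneg
      (hTZ δ A B n hδ hA0 hAB hn.1.1.1).2.1
  · rw [← Finset.sum_filter_add_sum_filter_not ((Icc 1 B).filter p) (fun n => n.Prime)]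
    congr 1
    symm
    have hsub : (Ioc A B).filter (fun n => n.Prime ∧ p n) ⊆
        ((Icc 1 B).filter p).filter (fun n => n.Prime) := by
      intro n hn
      rw [Finset.mem_filter, Finset.mem_Ioc] at hn
      rw [Finset.mem_filter, Finset.mem_filter, Finset.mem_Icc]
      exact ⟨⟨⟨by omega, hn.1.2⟩, hn.2.2⟩, hn.2.1⟩
    rw [← Finset.sum_subset (f := fun n => ArithmeticFunction.vonMangoldt n * tz δ A B n) hsub]
    · refine Finset.sum_congr rfl fun n hn => ?_
      rw [Finset.mem_filter] at hn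
      rw [ArithmeticFunction.vonMangoldt_apply_prime hn.2.1, mul_comm]
    · intro n hn hn'
      rw [Finset.mem_filter, Finset.mem_filter, Finset.mem_Icc] at hn
      rw [Finset.mem_filter, Finset.mem_Ioc] at hn'
      have hnA : n ≤ A := by
        by_contra hc
        push Not at hc
        exact hn' ⟨⟨hc, hn.1.1.2⟩, hn.2, hn.1.2⟩
      rw [(hTZ δ A B n hδ hA0 hAB hn.1.1.1).2.2.1 (by exact_mod_cast hnA), mul_zero]

end

theorem rpow_room (δ : ℝ) (hδ : 0 < δ) : ∃ X0 : ℕ, ∀ X : ℕ, X0 ≤ X →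
    (1 / δ) * (16 * Real.log X ^ 3) + 2 * √(X : ℝ) * Real.log X ≤
      (X : ℝ) ^ (5001 / 10000 : ℝ) := by
  have h1 : (fun x : ℝ => (1 / δ) * (16 * Real.log x ^ 3) + 2 * √x * Real.log x) =o[atTop]
      (fun x : ℝ => x ^ (5001 / 10000 : ℝ)) := by
    refine Asymptotics.IsLittleO.add ?_ ?_
    · refine Asymptotics.IsLittleO.const_mul_left ?_ _
      refine Asymptotics.IsLittleO.const_mul_left ?_ _
      have h2 := isLittleO_log_rpow_rpow_atTop (3 : ℝ)
        (show (0 : ℝ) < 5001 / 10000 by norm_num)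
      refine h2.congr_left fun x => ?_
      norm_cast
    · have h3 : (fun x : ℝ => Real.log x) =o[atTop] (fun x : ℝ => x ^ (1 / 10000 : ℝ)) :=
        isLittleO_log_rpow_atTop (by norm_num)
      have h4 : (fun x : ℝ => (2 * √x) * Real.log x) =o[atTop]
          (fun x : ℝ => (2 * √x) * x ^ (1 / 10000 : ℝ)) :=
        (Asymptotics.isBigO_refl _ _).mul_isLittleO h3
      refine h4.trans_isBigO ?_
      refine Asymptotics.IsBigO.of_bound 2 ?_
      filter_upwards [eventually_gt_atTop 0] with x hx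
      have e : (2 * √x) * x ^ (1 / 10000 : ℝ) = 2 * x ^ (5001 / 10000 : ℝ) := by
        rw [Real.sqrt_eq_rpow, mul_assoc, ← Real.rpow_add hx]
        norm_num
      rw [e, norm_mul]
      simp
  have h5 := (h1.bound (show (0 : ℝ) < 1 by norm_num)).and (eventually_ge_atTop (1 : ℝ))
  obtain ⟨x0, hx0⟩ := eventually_atTop.mp h5
  refine ⟨⌈x0⌉₊, fun X hX => ?_⟩
  have hX' : x0 ≤ X := (Nat.le_ceil x0).trans (by exact_mod_cast hX)
  obtain ⟨h6, h7⟩ := hx0 X hX'
  rw [one_mul] at h6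
  have h8 := (le_abs_self _).trans h6
  rwa [Real.norm_of_nonneg (Real.rpow_nonneg (by linarith) _)] at h8

theorem trap (hTZ : St_TZ) : St_TRAP := by
  classical
  intro δ hδ hδ1
  obtain ⟨X0, hX0⟩ := rpow_room δ hδ
  refine ⟨X0, fun X hX A B hA hAB hBX m c hm hmX hc => ?_⟩
  have hA0 : (0 : ℝ) < A := by exact_mod_cast hA
  have hA1 : (1 : ℝ) ≤ A := by exact_mod_cast hA
  have heδ : (1 : ℝ) ≤ Real.exp δ := Real.one_le_exp hδ.le
  have heδ' : Real.exp (-δ) ≤ 1 := Real.exp_le_one_iff.mpr (by linarith)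
  have he2 : Real.exp (2 * δ) = Real.exp δ * Real.exp δ := by rw [← Real.exp_add]; ring_nf
  have x1 : (1 : ℝ) ≤ A * Real.exp δ := by nlinarith
  have x2 : (A : ℝ) * Real.exp δ ≤ B * Real.exp (-δ) := by
    have h1 : (A : ℝ) * Real.exp (2 * δ) * Real.exp (-δ) ≤ B * Real.exp (-δ) :=
      mul_le_mul_of_nonneg_right hAB (Real.exp_pos _).le
    have h2 : (A : ℝ) * Real.exp (2 * δ) * Real.exp (-δ) = A * Real.exp δ := by
      rw [mul_assoc, ← Real.exp_add]
      ring_nf
    linarith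
  have hB0 : (0 : ℝ) ≤ B := Nat.cast_nonneg B
  have x3 : (B : ℝ) * Real.exp (-δ) ≤ B := mul_le_of_le_one_right hB0 heδ'
  have x4 : (A : ℝ) ≤ A * Real.exp δ := le_mul_of_one_le_right hA0.le heδ
  have hB1 : (1 : ℝ) ≤ B := by linarith
  have hXB : (B : ℝ) ≤ X := by exact_mod_cast hBX
  have hX1 : (1 : ℝ) ≤ X := by linarith
  have hlogX : 0 ≤ Real.log X := Real.log_nonneg hX1
  -- floors
  have f1 : ⌊(B : ℝ)⌋₊ ≤ B := by rw [Nat.floor_natCast]
  have f2 : ⌊(B : ℝ) * Real.exp (-δ)⌋₊ ≤ B := by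
    have := Nat.floor_le_floor x3; rwa [Nat.floor_natCast] at this
  have f3 : ⌊(A : ℝ) * Real.exp δ⌋₊ ≤ B := by
    have := Nat.floor_le_floor (x2.trans x3); rwa [Nat.floor_natCast] at this
  have f4 : ⌊(A : ℝ)⌋₊ ≤ B := by
    rw [Nat.floor_natCast]
    exact_mod_cast x4.trans (x2.trans x3)
  -- the four discrepancies
  have hom := Pool.Agent.Y261.CH.om_le m (by omega)
  have hlm : Real.log m ≤ Real.log X :=
    Real.log_le_log (by exact_mod_cast hm) (by exact_mod_cast hmX)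
  have D : ∀ x : ℝ, 1 ≤ x → x ≤ X → |psiLogAP x m c - psiLog1 x / (Nat.totient m : ℝ)| ≤
      (1 / (Nat.totient m : ℝ)) * (∑ f ∈ m.divisors.filter (fun f => f ≠ 1), TT1 x f) +
        4 * Real.log X ^ 3 := by
    intro x hx hxX
    have h1 := Pool.Agent.H398R2.BV.disc_le x hx m c hm hc
    refine h1.trans (add_le_add le_rfl ?_)
    have hlx : 0 ≤ Real.log x := Real.log_nonneg hx
    have hlx2 : Real.log x ^ 2 ≤ Real.log X ^ 2 :=
      pow_le_pow_left₀ hlx (Real.log_le_log (by linarith) hxX) 2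
    have h2 : (m.primeFactors.card : ℝ) ≤ 2 * Real.log X := by linarith
    calc 2 * ((m.primeFactors.card : ℝ) * Real.log x ^ 2)
        ≤ 2 * ((2 * Real.log X) * Real.log X ^ 2) := by
          refine mul_le_mul_of_nonneg_left ?_ (by norm_num)
          exact mul_le_mul h2 hlx2 (sq_nonneg _) (by linarith)
      _ = 4 * Real.log X ^ 3 := by ring
  have D1 := D B hB1 hXB
  have D2 := D (B * Real.exp (-δ)) (x1.trans x2) (x3.trans hXB)
  have D3 := D (A * Real.exp δ) x1 (x2.trans (x3.trans hXB))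
  have D4 := D A hA1 (x4.trans (x2.trans (x3.trans hXB)))
  -- the sums
  obtain ⟨Ec, c1, c2, c3⟩ := split_primes hTZ hδ hA hAB (fun n => n ≡ c [MOD m])
  obtain ⟨E1, e1, e2, e3⟩ := split_primes hTZ hδ hA hAB (fun _ => True)
  rw [comb, ← psiLogAP_eq hB1 f1, ← psiLogAP_eq (x1.trans x2) f2, ← psiLogAP_eq x1 f3,
    ← psiLogAP_eq hA1 f4] at c3
  simp only [and_true, Finset.filter_true] at e3
  rw [comb, ← psiLog1_eq hB1 f1, ← psiLog1_eq (x1.trans x2) f2, ← psiLog1_eq x1 f3,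
    ← psiLog1_eq hA1 f4] at e3
  have hPT : PT δ A B m c = (1 / δ) * (psiLogAP B m c - psiLogAP (B * Real.exp (-δ)) m c -
      psiLogAP (A * Real.exp δ) m c + psiLogAP A m c) - Ec := by
    rw [c3]
    unfold PT
    ring
  have hPT1 : PT1 δ A B = (1 / δ) * (psiLog1 B - psiLog1 (B * Real.exp (-δ)) -
      psiLog1 (A * Real.exp δ) + psiLog1 A) - E1 := by
    rw [e3]
    unfold PT1
    ring
  have hφ : (1 : ℝ) ≤ (Nat.totient m : ℝ) := by
    exact_mod_cast Nat.totient_pos.mpr (by omega)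
  have hφ0 : (0 : ℝ) < (Nat.totient m : ℝ) := by linarith
  set φ : ℝ := (Nat.totient m : ℝ) with hφd
  have key : PT δ A B m c - PT1 δ A B / φ = (1 / δ) *
      ((psiLogAP B m c - psiLog1 B / φ) -
        (psiLogAP (B * Real.exp (-δ)) m c - psiLog1 (B * Real.exp (-δ)) / φ) -
        (psiLogAP (A * Real.exp δ) m c - psiLog1 (A * Real.exp δ) / φ) +
        (psiLogAP A m c - psiLog1 A / φ)) + (E1 / φ - Ec) := by
    rw [hPT, hPT1]
    field_simp
    ring
  rw [key]
  have hE1 : E1 / φ ≤ E1 := div_le_self e1 hφ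
  have hE1' : 0 ≤ E1 / φ := div_nonneg e1 hφ0.le
  have hsq : √(B : ℝ) ≤ √(X : ℝ) := Real.sqrt_le_sqrt hXB
  have hlB : Real.log B ≤ Real.log X := Real.log_le_log (by linarith) hXB
  have hlB0 : 0 ≤ Real.log B := Real.log_nonneg hB1
  have hEE : 2 * √(B : ℝ) * Real.log B ≤ 2 * √(X : ℝ) * Real.log X := by
    refine mul_le_mul (by linarith) hlB hlB0 (by positivity)
  have hEabs : |E1 / φ - Ec| ≤ 2 * √(X : ℝ) * Real.log X := by
    rw [abs_le]
    constructor <;> linarith
  have hδi : 0 ≤ 1 / δ := by positivity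
  have hsum : ∑ f ∈ m.divisors.filter (fun f => f ≠ 1), TP δ A B f =
      ∑ f ∈ m.divisors.filter (fun f => f ≠ 1), TT1 A f +
      ∑ f ∈ m.divisors.filter (fun f => f ≠ 1), TT1 (A * Real.exp δ) f +
      ∑ f ∈ m.divisors.filter (fun f => f ≠ 1), TT1 (B * Real.exp (-δ)) f +
      ∑ f ∈ m.divisors.filter (fun f => f ≠ 1), TT1 B f := by
    rw [← Finset.sum_add_distrib, ← Finset.sum_add_distrib, ← Finset.sum_add_distrib]
    rfl
  have hroom := hX0 X hX
  have habs : |(psiLogAP B m c - psiLog1 B / φ) -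
        (psiLogAP (B * Real.exp (-δ)) m c - psiLog1 (B * Real.exp (-δ)) / φ) -
        (psiLogAP (A * Real.exp δ) m c - psiLog1 (A * Real.exp δ) / φ) +
        (psiLogAP A m c - psiLog1 A / φ)| ≤
      (1 / φ) * ∑ f ∈ m.divisors.filter (fun f => f ≠ 1), TP δ A B f + 16 * Real.log X ^ 3 := by
    rw [hsum]
    have g1 := abs_le.mp D1
    have g2 := abs_le.mp D2
    have g3 := abs_le.mp D3
    have g4 := abs_le.mp D4
    rw [abs_le]
    constructor
    · linarith [g1.1, g2.2, g3.2, g4.1]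
    · linarith [g1.2, g2.1, g3.1, g4.2]
  calc |(1 / δ) * ((psiLogAP B m c - psiLog1 B / φ) -
        (psiLogAP (B * Real.exp (-δ)) m c - psiLog1 (B * Real.exp (-δ)) / φ) -
        (psiLogAP (A * Real.exp δ) m c - psiLog1 (A * Real.exp δ) / φ) +
        (psiLogAP A m c - psiLog1 A / φ)) + (E1 / φ - Ec)|
      ≤ |(1 / δ) * ((psiLogAP B m c - psiLog1 B / φ) -
        (psiLogAP (B * Real.exp (-δ)) m c - psiLog1 (B * Real.exp (-δ)) / φ) -
        (psiLogAP (A * Real.exp δ) m c - psiLog1 (A * Real.exp δ) / φ) +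
        (psiLogAP A m c - psiLog1 A / φ))| + |E1 / φ - Ec| := abs_add_le _ _
    _ ≤ (1 / δ) * ((1 / φ) * ∑ f ∈ m.divisors.filter (fun f => f ≠ 1), TP δ A B f +
          16 * Real.log X ^ 3) + 2 * √(X : ℝ) * Real.log X := by
        rw [abs_mul, abs_of_nonneg hδi]
        exact add_le_add (mul_le_mul_of_nonneg_left habs hδi) hEabs
    _ ≤ _ := by
        have : (1 / δ) * ((1 / φ) * ∑ f ∈ m.divisors.filter (fun f => f ≠ 1), TP δ A B f +
          16 * Real.log X ^ 3) = (1 / δ) * ((1 / φ) *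
            ∑ f ∈ m.divisors.filter (fun f => f ≠ 1), TP δ A B f) +
            (1 / δ) * (16 * Real.log X ^ 3) := by ring
        linarith

end Pool.Agent.Q153.CR
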